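import Pool.Agent.H37R3.K4.TCChk
import Pool.Agent.H37R3.K4.TCPsd
import Pool.Agent.H37R3.Cnt

set_option autoImplicit false
set_option maxRecDepth 100000
set_option maxHeartbeats 4000000
open Finset

namespace Pool.Agent.H37R3.TC
open Pool.Agent.H122R2.N6 Pool.Agent.H37R3.Pen Pool.Agent.H37R3.Cop

theorem hc (b012 b013 b023 b123 b014 b024 b124 b034 b134 b234 : ℕ) (hb012 : Bt b012) (hb013 : Bt b013) (hb023 : Bt b023) (hb123 : Bt b123) (hb014 : Bt b014) (hb024 : Bt b024) (hb124 : Bt b124) (hb034 : Bt b034) (hb134 : Bt b134) (hb234 : Bt b234) (ht : tg b012 b013 b023 b123 b014 b024 b124 b034 b134 b234 = 4) :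
    chkX q4 q2 CST PEN LST b012 b013 b023 b123 b014 b024 b124 b034 b134 b234 = true := by
  have h : part b012 b013 = true := by
    rcases hb012 with rfl | rfl <;> rcases hb013 with rfl | rfl
    exacts [part00, part01, part10, part11]
  have h2 := (B2_true (B2_true (B2_true (B2_true (B2_true (B2_true (B2_true (B2_true h hb023) hb123) hb014) hb024) hb124) hb034) hb134) hb234)
  refine or_false_left h2 ?_
  rw [ht]
  rfl

theorem rng : (nall 16 fun c => and (Nat.blt (rho c) 4) (nall 64 fun i => Nat.blt (pc c i) 64)) = true := by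
  decide +kernel

theorem rho_lt {c : ℕ} (h : c < 16) : rho c < 4 := by
  have := nall_true rng c h
  rw [Bool.and_eq_true] at this
  exact Nat.le_of_ble_eq_true this.1

theorem pc_lt {c i : ℕ} (h : c < 16) (hi : i < 64) : pc c i < 64 := by
  have := nall_true rng c h
  rw [Bool.and_eq_true] at this
  exact Nat.le_of_ble_eq_true (nall_true this.2 i hi)

theorem g4_all {r i j : ℕ} (hr : r < 4) (hi : i < 64) (hj : j < 64) : g4 r i j = true := by
  have h : chk4 r = true := by
    interval_cases r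
    exacts [cp0, cp1, cp2, cp3]
  exact nall_true (nall_true h i hi) j hj

theorem expand (s : Finset ℕ) (w u v : ℕ → ℕ) (B : ℤ) :
    ∑ k ∈ s, (w k : ℤ) * ((u k : ℤ) - B) * ((v k : ℤ) - B) =
      ∑ k ∈ s, (w k : ℤ) * ((u k : ℤ) * (v k : ℤ)) + B ^ 2 * ∑ k ∈ s, (w k : ℤ)
        - B * (∑ k ∈ s, (w k : ℤ) * (u k : ℤ) + ∑ k ∈ s, (w k : ℤ) * (v k : ℤ)) := by
  rw [mul_add, mul_sum, mul_sum, mul_sum, ← sum_add_distrib, ← sum_add_distrib, ← sum_sub_distrib]
  exact sum_congr rfl fun k _ => by ring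

theorem hq4 (c i j : ℕ) (hc : c < 16) (hi : i < 64) (hj : j < 64) : (q4 c i j : ℤ) =
    ∑ k ∈ range 78, (w4 (rho c) k : ℤ) * ((l4 (rho c) (pc c i) k : ℤ) - 8192) *
      ((l4 (rho c) (pc c j) k : ℤ) - 8192) + 4611686018427387904 := by
  have h := Nat.eq_of_beq_eq_true (g4_all (rho_lt hc) (pc_lt hc hi) (pc_lt hc hj))
  unfold ll sw sl at h
  rw [nsum_eq, nsum_eq, nsum_eq, nsum_eq] at h
  have h2 := congrArg (fun n : ℕ => (n : ℤ)) h
  simp only [Nat.add_eq, Nat.mul_eq] at h2
  push_cast at h2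
  rw [expand (range 78) (fun k => w4 (rho c) k) (fun k => l4 (rho c) (pc c i) k)
    (fun k => l4 (rho c) (pc c j) k) 8192]
  have h3 : (q4 c i j : ℤ) = (tq (rho c) (pc c i) (pc c j) : ℤ) := rfl
  rw [h3]
  linarith

theorem hq2 (i j : ℕ) (hi : i < 16) (hj : j < 16) : (q2 i j : ℤ) =
    ∑ k ∈ range 13, (w2 k : ℤ) * ((l2 i k : ℤ) - 8192) * ((l2 j k : ℤ) - 8192)
      + (4611686018427387904 + 82028104566926400 * ((kk i j : ℕ) : ℤ)) := by
  have h := Nat.eq_of_beq_eq_true (nall_true (nall_true cpb i hi) j hj)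
  unfold ll2 sw2 sl2 at h
  rw [nsum_eq, nsum_eq, nsum_eq, nsum_eq] at h
  have h2 := congrArg (fun n : ℕ => (n : ℤ)) h
  simp only [Nat.add_eq, Nat.mul_eq] at h2
  push_cast at h2
  rw [expand (range 13) (fun k => w2 k) (fun k => l2 i k) (fun k => l2 j k) 8192]
  linarith

/-- codes of the listed structures with isomorphisms to the patterns -/
def TAB : List (ℕ × ℕ × ℕ) := [(605310, 120663, 144453), (679038, 120663, 144397), (826494, 120663, 143893), (949432, 120663, 108585), (965816, 120663, 104490), (978104, 120663, 71723), (978105, 228027, 144453), (928955, 120663, 109313), (961723, 228027, 136872), (539902, 120663, 181315), (597246, 120663, 177220), (613630, 228027, 84680), (630014, 228027, 51920), (642302, 228027, 181336), (670974, 228027, 80648), (679166, 228027, 88257), (802046, 228027, 47888), (826622, 228027, 55490), (929022, 228027, 177248)]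

theorem iso : isoL LST TAB 120663 228027 = true := by decide +kernel

def FA : Finset (Finset (Fin 6)) := {{0, 1, 2}, {0, 1, 3}, {0, 2, 3}, {0, 1, 4}, {1, 2, 4}, {1, 3, 4}, {2, 3, 4}, {0, 1, 5}, {1, 2, 5}, {1, 3, 5}, {2, 3, 5}, {0, 4, 5}}

def FB : Finset (Finset (Fin 6)) := {{0, 1, 2}, {0, 1, 3}, {1, 2, 3}, {0, 1, 4}, {0, 2, 4}, {0, 3, 4}, {2, 3, 4}, {0, 2, 5}, {1, 2, 5}, {0, 3, 5}, {1, 3, 5}, {0, 4, 5}, {1, 4, 5}}

theorem maskA : Mask 120663 FA := by
  constructor
  · decide +kernel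
  · decide +kernel

theorem maskB : Mask 228027 FB := by
  constructor
  · decide +kernel
  · decide +kernel

open scoped Classical in
theorem main {V : Type} [Fintype V] {H : Finset (Finset V)} (hH : ∀ e ∈ H, e.card = 3)
    (hF : K43Free H) (hn : 0 < Fintype.card V) :
    54 * Fintype.card V ^ 3 * H.card ≤ 5 * Fintype.card V ^ 6 + 810 *
      ((((univ : Finset V).powersetCard 6).filter fun S => Induces FA H S).card +
        (((univ : Finset V).powersetCard 6).filter fun S => Induces FB H S).card) := by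

  have hE := tri_sy H
  have hb := boundX (tri H) hE 78 13 CST PEN (X6 (tri H) 120663 228027) q4
    (fun c k => w4 (rho c) k) (fun c i k => l4 (rho c) (pc c i) k)
    q2 w2 l2 8192 4611686018427387904 4611686018427387904 (fun k => 82028104566926400 * (k : ℤ)) hq4 hq2
    (leafX_all hE (tri_noK4 hH hF) (X6_0 (tri H) _ _) (X6_1 (tri H) _ _) (X6_2 (tri H) _ _)
      (X6_3 (tri H) _ _) (hmem_of hE iso) cs4 cs2 hc)
  rw [T2_lin (tri H) hE] at hb
  simp only [XX_eq] at hb
  have hC : (CST : ℤ) = 284903971562335914240 := rfl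
  have hP : (PEN : ℤ) = 1845632352755844000 := rfl
  rw [hC, hP] at hb
  have h1 : ∑ x : Fin 6 → V, ((XX (tri H) 120663 228027 x : ℕ) : ℤ) ≤ ((720 *
      ((((univ : Finset V).powersetCard 6).filter fun S => Induces FA H S).card +
        (((univ : Finset V).powersetCard 6).filter fun S => Induces FB H S).card) : ℕ) : ℤ) := by
    exact_mod_cast sum_XX_le hH maskA maskB
  have h2 : ((6 * H.card : ℕ) : ℤ) ≤ ∑ a, ∑ b, ∑ c, ((tri H a b c : ℕ) : ℤ) := by
    exact_mod_cast six_card_le hH
  have h3 : (0 : ℤ) ≤ (Fintype.card V : ℤ) ^ 3 := by positivity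
  have h4 := mul_le_mul_of_nonneg_left h2 h3
  have h5 : (54 * (Fintype.card V : ℤ) ^ 3 * (H.card : ℤ)) ≤ 5 * (Fintype.card V : ℤ) ^ 6 + 810 *
      (((((univ : Finset V).powersetCard 6).filter fun S => Induces FA H S).card : ℤ) +
        ((((univ : Finset V).powersetCard 6).filter fun S => Induces FB H S).card : ℤ)) := by
    push_cast at h1 h4
    linarith
  exact_mod_cast h5

end Pool.Agent.H37R3.TC
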